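import Mathlib
import Pool.Agent.H17.SRef

namespace Pool.Agent.Results.MP_b12348_gt.Neg

open Set Pool.Agent.H17.SRef

theorem result : ∃ (d : ℕ) (C : Set (Fin d → ℝ)), IsPolytope C ∧ ¬ IsSimplex C ∧
    ∃ (κ : Type) (_ : Fintype κ) (c : κ → Fin d → ℝ), Function.Injective c ∧
      range c = extremePoints ℝ C ∧
      ∃ (ι : Type) (_ : Fintype ι) (Df : Set (ι → ℝ)) (f : (ι → ℝ) → Fin d → ℝ)
        (Dg : Set (stdSimplex ℝ ι → ℝ)) (g : (stdSimplex ℝ ι → ℝ) → C → ℝ),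
        Refines (stdSimplex ℝ ι) C Df f Dg g ∧
          ¬ ∃ (Dg0 : Set (stdSimplex ℝ κ → ℝ)) (g0 : (stdSimplex ℝ κ → ℝ) → C → ℝ)
            (Df' : Set (ι → ℝ)) (f' : (ι → ℝ) → κ → ℝ) (Dg' : Set (stdSimplex ℝ ι → ℝ))
            (g' : (stdSimplex ℝ ι → ℝ) → stdSimplex ℝ κ → ℝ),
            Refines (stdSimplex ℝ κ) C (stdSimplex ℝ κ) (fun u => ∑ k, u k • c k) Dg0 g0 ∧
              Refines (stdSimplex ℝ ι) (stdSimplex ℝ κ) Df' f' Dg' g' ∧
              Df = Df' ∧ (∀ x ∈ Df, f x = ∑ k, f' x k • c k) ∧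
              Dg = {ω | ω ∈ Dg' ∧ g' ω ∈ Dg0} ∧ ∀ ω ∈ Dg, g ω = g0 (g' ω) := by
  classical
  obtain ⟨Dg, g, h⟩ := cub_refines
  have : Fintype (extremePoints ℝ Cub) := ext_fin.fintype
  refine ⟨4, Cub, cub_poly, cub_not, extremePoints ℝ Cub, inferInstance, (↑), Subtype.val_injective,
    Subtype.range_coe, I8, inferInstance, D8, f8, Dg, g, h, ?_⟩
  rintro ⟨-, -, _, f', Dg', g', -, ⟨h1, h2, h3⟩, rfl, h4, -⟩
  have mem : ∀ j, f' (pt 0 j) ∈ stdSimplex ℝ (extremePoints ℝ Cub) := fun j =>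
    h1.2.2.le ⟨_, pt_mem 0 j, rfl⟩
  have supp : ∀ j, 0 ≠ j → ∀ k : extremePoints ℝ Cub, k.1 ≠ vx 0 j → f' (pt 0 j) k = 0 := by
    intro j hj k hk
    have e := h4 _ (pt_mem 0 j)
    rw [f8_pt] at e
    have e2 := vx_val hj
    have e3 : ∑ l : extremePoints ℝ Cub, f' (pt 0 j) l * (2 - (l.1 0 - l.1 j)) = 0 := by
      rw [e] at e2
      simp only [Finset.sum_apply, Pi.smul_apply, smul_eq_mul] at e2
      simp only [mul_sub, Finset.sum_sub_distrib, ← Finset.sum_mul, (mem j).2]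
      linarith
    have e4 := (Finset.sum_eq_zero_iff_of_nonneg fun l _ => mul_nonneg ((mem j).1 l)
      (sub_nonneg.2 (expo l.2.1 0 j).1)).1 e3 k (Finset.mem_univ _)
    exact (mul_eq_zero.1 e4).resolve_right fun e5 => hk ((expo k.2.1 0 j).2 (by linarith))
  obtain ⟨ω, hω, e⟩ := h2.2.2.ge (lin_form (fun k : extremePoints ℝ Cub =>
    if k.1 = vx 0 1 then 1 else 0) fun k => by split_ifs <;> simp)
  obtain ⟨⟨A, hA⟩, hb⟩ := h2.1 hω
  have val : ∀ j, (A (Pi.single (.inl 0) 1) + A (Pi.single (.inr j) 1)) / 2 =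
      ∑ k : extremePoints ℝ Cub, f' (pt 0 j) k * if k.1 = vx 0 1 then 1 else 0 := fun j => by
    have := h3 ⟨_, (pt_mem 0 j).1⟩ ⟨_, mem j⟩ (pt_mem 0 j) rfl ω hω
    rw [e, hA] at this
    refine Eq.trans ?_ this.symm
    show _ = A (pt 0 j)
    rw [pt, Convex.combo_affine_apply (by norm_num)]
    simp only [smul_eq_mul]
    ring
  have bd : ∀ k, A (Pi.single k 1) ∈ Icc (0 : ℝ) 1 := fun k => by
    have := hb ⟨_, single_mem_stdSimplex ℝ k⟩
    rwa [hA] at this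
  have v1 := (val 1).trans ((Finset.sum_congr rfl fun k _ => by
    split_ifs with hk
    · rw [mul_one]
    · rw [mul_zero, supp 1 (by decide) k hk]).trans (mem 1).2)
  have v2 := (val 2).trans (Finset.sum_eq_zero fun k _ => by
    split_ifs with hk
    · rw [supp 2 (by decide) k (hk ▸ vx_ne), zero_mul]
    · rw [mul_zero])
  linarith [(bd (.inr 1)).2, (bd (.inr 2)).1]

end Pool.Agent.Results.MP_b12348_gt.Neg
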